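import Pool.Agent.Helper49.MT.Add
import Pool.Agent.Helper52.KP.Agr

/-! MULTI-TYPE LAYER: EXACT LABELS FROM AGREEMENT, for families of conditions. Functions of `(A i, l)` for every `i`, on
an event of positive probability, are functions of the maximal label `l`; agreement of copies produces such functions
(proofs of Helper52.KP.Agr). -/

namespace Pool.Agent.Helper40.EL

open Finset Filter Topology Pool.Agent.Helper69.RK Pool.Agent.Helper31.EC

noncomputable section

namespace Lab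

variable {S : Sp} {ι : Type} {l : Lab S} {A : ι → Part S}

/-- a partition of the label space which is a function of `(A i, l)` for every `i` can be added to a Markov label -/
theorem DMf.addW (hl : l.DMf A) (W : ∀ k, Setoid (l k).T.Ω)
    (h1 : ∀ i, Nul S (fun k => h (fc (W k) : FL (l k).T) ((l k).v ⊔ (l k).p.map (A i k)))) : (l.addW W).DMf A :=
  fun i => ((hl i).add (h1 i)).of_le (Eventually.of_forall fun k => FLab.leak_nonneg _ _)
    (Eventually.of_forall fun k => (l k).addW_leak_le (W k) (A i k))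

/-- functions of `(A i, l)` for all `i` are functions of a maximal label `l` -/
theorem IsMaxf.fun_small (hl : l.IsMaxf A) {i₀ : ι} (hA : (A i₀).Bd) (W : ∀ k, Setoid (l k).T.Ω)
    (h1 : ∀ i, Nul S (fun k => h (fc (W k) : FL (l k).T) ((l k).v ⊔ (l k).p.map (A i k)))) :
    Nul S (fun k => h (fc (W k) : FL (l k).T) (l k).v) ∧ (l.addW W).IsMaxf A := by
  have hd : (l.addW W).DMf A := hl.1.addW W h1
  have hle := hl.2 _ hd
  have t1 := ul_tendsto (hd.ub hA)
  have t2 := ul_tendsto (hl.1.ub hA)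
  have t3 : Tendsto (fun k => ((l.addW W) k).info / (S.F k).n - (l k).info / (S.F k).n +
      h (fc (W k) : FL (l k).T) ((l k).v ⊔ (l k).p.map (A i₀ k)) / (S.F k).n) UF
      (𝓝 ((l.addW W).info - l.info + 0)) := (t1.sub t2).add (h1 i₀)
  have hb : ∀ k, h (fc (W k) : FL (l k).T) (l k).v / (S.F k).n ≤ ((l.addW W) k).info / (S.F k).n -
      (l k).info / (S.F k).n + h (fc (W k) : FL (l k).T) ((l k).v ⊔ (l k).p.map (A i₀ k)) / (S.F k).n := by
    intro k
    have h3 := (l k).addW_info_ge (W k) (A i₀ k)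
    rw [← sub_div, ← add_div]
    apply div_le_div_of_nonneg_right _ (S.F k).pos.le
    have h4 : ((l.addW W) k).info = ((l k).addW (W k)).info := rfl
    rw [h4]
    linarith
  have h0 : ∀ k, 0 ≤ h (fc (W k) : FL (l k).T) (l k).v / (S.F k).n := fun k =>
    div_nonneg (h_nonneg _ _) (S.F k).pos.le
  have hL : 0 ≤ (l.addW W).info - l.info + 0 :=
    ge_of_tendsto t3 (Eventually.of_forall fun k => (h0 k).trans (hb k))
  have hE : (l.addW W).info = l.info := by linarith
  rw [hE, sub_self, add_zero] at t3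
  refine ⟨tendsto_of_tendsto_of_tendsto_of_le_of_le tendsto_const_nhds t3 h0 hb, hd, fun l' hl' => ?_⟩
  rw [hE]
  exact hl.2 l' hl'

/-- K (3.5), EXACT LABEL: the same on an event `E` of positive probability of the label space -/
theorem IsMaxf.fun_small_im (hl : l.IsMaxf A) {i₀ : ι} (hA : (A i₀).Bd) (E : ∀ k, (l.sp.F k).Ω → Prop)
    (hE : 0 < ul (l.sp.pr E)) (hA₂ : ((A i₀).im l.pj fun k ω => ¬ E k ω).Bd) (W : ∀ k, Setoid (l k).T.Ω)
    (h1 : ∀ i, Nul S (fun k => h (fc (W k) : FL ((l k).T.rest (E k)))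
      ((l k).T.rmap (E k) ((l k).v ⊔ (l k).p.map (A i k))))) :
    Nul S (fun k => h (fc (W k) : FL ((l k).T.rest (E k))) ((l k).T.rmap (E k) (l k).v)) ∧
      ((l.im E).addW W).IsMaxf (fun i => (A i).im l.pj E) := by
  have hm := hl.im_max E hE hA hA₂
  have e : ∀ (A : Part S) (k : ℕ), ((l.im E) k).v ⊔ ((l.im E) k).p.map ((A.im l.pj E) k) =
      (l k).T.rmap (E k) ((l k).v ⊔ (l k).p.map (A k)) := by
    intro A k
    have e1 : ((l.im E) k).p.map ((A.im l.pj E) k) = (l k).T.rmap (E k) ((l k).p.map (A k)) :=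
      FSp.imp_imap (l k).p (E k) (A k)
    rw [e1]
    exact ((l k).T.rmap_sup (E k) (l k).v ((l k).p.map (A k))).symm
  have r := IsMaxf.fun_small hm (i₀ := i₀) (hA.im l.pj hE) W
    (by
      intro i
      have : (fun k => h (fc (W k) : FL ((l.im E) k).T)
          (((l.im E) k).v ⊔ ((l.im E) k).p.map (((A i).im l.pj E) k))) =
          fun k => h (fc (W k) : FL ((l k).T.rest (E k))) ((l k).T.rmap (E k) ((l k).v ⊔ (l k).p.map (A i k))) := by
        funext k; rw [e (A i) k]; rfl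
      rw [this]; exact h1 i)
  exact r

/-- K (3.5) FOR FAMILIES: agreement of copies given `(A i₀, l)` with positive probability; the rounding `rd1 u` is a
function of `(A i, l)` for every other `i` -/
theorem IsMaxf.agree (hl : l.IsMaxf A) {i₁ : ι} (hA : (A i₁).Bd)
    (hA₂ : ∀ E : ∀ k, (l.sp.F k).Ω → Prop, ((A i₁).im l.pj E).Bd) (i₀ : ι)
    (D : ∀ k, FAm (l k).T (l k).T) (hD : ∀ k, (D k).f = (D k).g)
    (hY : ∀ k, (fc (Setoid.ker (D k).f) : FL (l k).T) ≤ (l k).v ⊔ (l k).p.map (A i₀ k))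
    (X V1 V2 : ℕ → Type) (u : ∀ k, (l k).T.Ω → X k) (R : ∀ k, X k → X k → Prop) (rd1 : ∀ k, X k → V1 k)
    (rd2 : ∀ k, X k → V2 k) (N : ℕ) (e : ∀ k, V1 k → Fin N → V2 k)
    (he : ∀ k x y, R k x y → ∃ i, rd2 k y = e k (rd1 k x) i)
    (hB : ∀ i, i ≠ i₀ → Nul S (fun k =>
      h (fc (Setoid.ker fun ω => rd1 k (u k ω)) : FL (l k).T) ((l k).v ⊔ (l k).p.map (A i k))))
    {p0 : ℝ} (hp0 : 0 < p0) (hp : ∀ᶠ k in UF, p0 ≤ (D k).sp.pb (fun w => R k (u k w.1) (u k w.2))) :
    ∃ (E : ∀ k, (l.sp.F k).Ω → Prop) (ub : ∀ k, (l k).T.Ω → X k), p0 ≤ ul (l.sp.pr E) ∧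
      (∀ k ω, E k ω → R k (u k ω) (ub k ω)) ∧ (∀ k ω ω', (D k).f ω = (D k).f ω' → ub k ω = ub k ω') ∧
      (∀ k ω, (l k).T.μ ω ≠ 0 → ∃ ω', (l k).T.μ ω' ≠ 0 ∧ (D k).f ω' = (D k).f ω ∧ ub k ω = u k ω') ∧
      Nul S (fun k => h (fc (Setoid.ker fun ω => rd2 k (ub k ω)) : FL ((l k).T.rest (E k)))
        ((l k).T.rmap (E k) (l k).v)) ∧
      ((l.im E).addW fun k => Setoid.ker fun ω => rd2 k (ub k ω)).IsMaxf (fun i => (A i).im l.pj E) := by
  choose c hc1 hc2 using fun k => (D k).agree (fun ω ω' => R k (u k ω) (u k ω'))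
  set ub : ∀ k, (l k).T.Ω → X k := fun k ω => u k (c k ((D k).f ω)) with hub
  set E : ∀ k, (l.sp.F k).Ω → Prop := fun k ω => R k (u k ω) (ub k ω) with hE
  have hpE : p0 ≤ ul (l.sp.pr E) := by
    apply pr_ge_of
    filter_upwards [hp] with k hk
    exact hk.trans (hc2 k)
  have hpos : 0 < ul (l.sp.pr E) := hp0.trans_le hpE
  have hev : ∀ᶠ k in UF, (l k).T.pb (E k) ≠ 0 := by
    filter_upwards [hp] with k hk
    exact (hp0.trans_le (hk.trans (hc2 k))).ne'
  have hfun : ∀ k, (fc (Setoid.ker fun ω => rd2 k (ub k ω)) : FL (l k).T) ≤ (l k).v ⊔ (l k).p.map (A i₀ k) := by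
    intro k
    refine le_trans (fc_mono ?_) (hY k)
    intro ω ω' h
    have h' : (D k).f ω = (D k).f ω' := h
    show rd2 k (ub k ω) = rd2 k (ub k ω')
    rw [hub]
    simp only
    rw [h']
  have hN : ∀ i, Nul S (fun k => h (fc (Setoid.ker fun ω => rd2 k (ub k ω)) : FL ((l k).T.rest (E k)))
      ((l k).T.rmap (E k) ((l k).v ⊔ (l k).p.map (A i k)))) := by
    intro i
    by_cases hi : i = i₀
    · subst hi
      have e0 : (fun k => h (fc (Setoid.ker fun ω => rd2 k (ub k ω)) : FL ((l k).T.rest (E k)))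
        ((l k).T.rmap (E k) ((l k).v ⊔ (l k).p.map (A i k)))) = fun _ => 0 := by
        funext k
        exact h_zero ((l k).T.rmap_mono (E k) (hfun k))
      rw [e0]; exact Nul_zero S
    · have hB' := nul_rmap (l := l) E hpos _ _ (hB i hi)
      refine ((Nul.const S (Real.logb 2 N)).add hB').of_le (Eventually.of_forall fun k => h_nonneg _ _) ?_
      filter_upwards [hev] with k hk
      have h3 := h_few (F := (l k).T) (E k) (fun ω => rd2 k (ub k ω)) (fun ω => rd1 k (u k ω)) N (e k)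
        (fun ω _ hω => he k _ _ hω) hk
      have h4 := h_triangle (fc (Setoid.ker fun ω => rd2 k (ub k ω)) : FL ((l k).T.rest (E k)))
        (fc (Setoid.ker fun ω => rd1 k (u k ω))) ((l k).T.rmap (E k) ((l k).v ⊔ (l k).p.map (A i k)))
      have h5 : h (fc (Setoid.ker fun ω => rd2 k (ub k ω)) : FL ((l k).T.rest (E k)))
          (fc (Setoid.ker fun ω => rd1 k (u k ω)) ⊔ (l k).T.rmap (E k) ((l k).v ⊔ (l k).p.map (A i k))) ≤
          h (fc (Setoid.ker fun ω => rd2 k (ub k ω)) : FL ((l k).T.rest (E k)))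
            (fc (Setoid.ker fun ω => rd1 k (u k ω))) := h_anti le_sup_left
      have h6 : h (fc (Setoid.ker fun ω => rd1 k (u k ω)) : FL ((l k).T.rest (E k)))
          ((l k).T.rmap (E k) ((l k).v ⊔ (l k).p.map (A i k))) =
          h ((l k).T.rmap (E k) (fc (Setoid.ker fun ω => rd1 k (u k ω))))
            ((l k).T.rmap (E k) ((l k).v ⊔ (l k).p.map (A i k))) := rfl
      exact h4.trans (add_le_add (h5.trans h3) (le_of_eq h6))
  obtain ⟨r1, r2⟩ := IsMaxf.fun_small_im hl hA E hpos (hA₂ _) (fun k => Setoid.ker fun ω => rd2 k (ub k ω)) hN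
  refine ⟨E, ub, hpE, fun k ω h => h, fun k ω ω' h => ?_, fun k ω hω => ?_, r1, r2⟩
  · show u k (c k ((D k).f ω)) = u k (c k ((D k).f ω'))
    rw [h]
  · refine ⟨c k ((D k).f ω), (hc1 k ω hω).2, ?_, rfl⟩
    rw [hD k]
    have := (hc1 k ω hω).1
    rw [hD k] at this
    exact this

end Lab

/-- finitely many events with small total failure probability -/
theorem _root_.Pool.Agent.Helper31.EC.FSp.pb_all_ge (F : FSp) {ι : Type} (s : Finset ι) (P : ι → F.Ω → Prop) :
    1 - ∑ i ∈ s, (1 - F.pb (P i)) ≤ F.pb (fun ω => ∀ i ∈ s, P i ω) := by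
  classical
  induction s using Finset.induction_on with
  | empty =>
    simp only [Finset.sum_empty, sub_zero, Finset.notMem_empty, IsEmpty.forall_iff, implies_true]
    have h1 : F.pb (fun _ => True) = ∑ ω, res F.μ (fun _ => True) ω := rfl
    have h4 : ∑ ω, F.μ ω = 1 := F.ms
    rw [h1, ← h4]
    apply Finset.sum_le_sum
    intro ω _
    rw [res_pos _ _ _ trivial]
  | insert i s hi ih =>
    rw [Finset.sum_insert hi]
    have h1 := F.pb_and_ge (P i) (fun ω => ∀ i ∈ s, P i ω)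
    have h2 : (fun ω => P i ω ∧ ∀ i ∈ s, P i ω) = fun ω => ∀ j ∈ insert i s, P j ω := by
      funext ω
      simp only [Finset.mem_insert, forall_eq_or_imp]
    rw [h2] at h1
    linarith

namespace Lab

variable {S : Sp} {ι : Type} {l : Lab S} {A : ι → Part S}

/-- AGREEMENT PRINCIPLE FOR FINITE FAMILIES (33c sect. 0): for every type `i` copies given `(A i, l)` agree with
probability `p i`, and the total failure probability is below `1`: the rounding of the best value given `(A i₀, l)` is a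
function of the maximal label, on an event of positive probability. -/
theorem IsMaxf.agree2 [Fintype ι] (hl : l.IsMaxf A) {i₁ : ι} (hA : (A i₁).Bd)
    (hA₂ : ∀ E : ∀ k, (l.sp.F k).Ω → Prop, ((A i₁).im l.pj E).Bd) (i₀ : ι)
    (D : ι → ∀ k, FAm (l k).T (l k).T) (hD : ∀ k, (D i₀ k).f = (D i₀ k).g)
    (hY : ∀ i k, (fc (Setoid.ker (D i k).f) : FL (l k).T) ≤ (l k).v ⊔ (l k).p.map (A i k))
    (X V : ℕ → Type) (u : ∀ k, (l k).T.Ω → X k) (R : ι → ∀ k, X k → X k → Prop)
    (rd : ∀ k, X k → V k) (N : ℕ) (e : ∀ k, X k → Fin N → V k)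
    (he : ∀ i k x y z, R i₀ k x y → R i k x z → ∃ j, rd k y = e k z j)
    {p : ι → ℝ} (hpp : 0 < 1 - ∑ i, (1 - p i))
    (hp : ∀ i, ∀ᶠ k in UF, p i ≤ (D i k).sp.pb (fun w => R i k (u k w.1) (u k w.2))) :
    ∃ (E : ∀ k, (l.sp.F k).Ω → Prop) (ub : ∀ k, (l k).T.Ω → X k), 1 - ∑ i, (1 - p i) ≤ ul (l.sp.pr E) ∧
      (∀ k ω, E k ω → R i₀ k (u k ω) (ub k ω)) ∧ (∀ k ω ω', (D i₀ k).f ω = (D i₀ k).f ω' → ub k ω = ub k ω') ∧
      (∀ k ω, (l k).T.μ ω ≠ 0 → ∃ ω', (l k).T.μ ω' ≠ 0 ∧ (D i₀ k).f ω' = (D i₀ k).f ω ∧ ub k ω = u k ω') ∧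
      Nul S (fun k => h (fc (Setoid.ker fun ω => rd k (ub k ω)) : FL ((l k).T.rest (E k)))
        ((l k).T.rmap (E k) (l k).v)) ∧
      ((l.im E).addW fun k => Setoid.ker fun ω => rd k (ub k ω)).IsMaxf (fun i => (A i).im l.pj E) := by
  classical
  choose c hc1 hc2 using fun i k => (D i k).agree (fun ω ω' => R i k (u k ω) (u k ω'))
  set ub : ∀ k, (l k).T.Ω → X k := fun k ω => u k (c i₀ k ((D i₀ k).f ω)) with hub
  set E : ∀ k, (l.sp.F k).Ω → Prop := fun k ω => ∀ i ∈ (Finset.univ : Finset ι),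
    R i k (u k ω) (u k (c i k ((D i k).f ω))) with hE
  have hge : ∀ᶠ k in UF, 1 - ∑ i, (1 - p i) ≤ (l k).T.pb (E k) := by
    have h0 : ∀ᶠ k in UF, ∀ i, p i ≤ (D i k).sp.pb (fun w => R i k (u k w.1) (u k w.2)) :=
      Filter.eventually_all.mpr hp
    filter_upwards [h0] with k hk
    have h3 := (l k).T.pb_all_ge Finset.univ (fun i ω => R i k (u k ω) (u k (c i k ((D i k).f ω))))
    refine le_trans ?_ h3
    have h4 : ∑ i, (1 - (l k).T.pb (fun ω => R i k (u k ω) (u k (c i k ((D i k).f ω))))) ≤ ∑ i, (1 - p i) := by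
      apply Finset.sum_le_sum
      intro i _
      have := (hk i).trans (hc2 i k)
      linarith
    linarith
  have hpE : 1 - ∑ i, (1 - p i) ≤ ul (l.sp.pr E) := pr_ge_of hge
  have hpos : 0 < ul (l.sp.pr E) := by linarith
  have hev : ∀ᶠ k in UF, (l k).T.pb (E k) ≠ 0 := by
    filter_upwards [hge] with k hk
    have : 0 < (l k).T.pb (E k) := by linarith
    exact this.ne'
  have hfun' : ∀ i k, (fc (Setoid.ker (fun ω => u k (c i k ((D i k).f ω)))) : FL (l k).T) ≤
      (l k).v ⊔ (l k).p.map (A i k) := by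
    intro i k
    refine le_trans (fc_mono ?_) (hY i k)
    intro ω ω' h
    have h' : (D i k).f ω = (D i k).f ω' := h
    show u k (c i k ((D i k).f ω)) = u k (c i k ((D i k).f ω'))
    rw [h']
  have hN : ∀ i, Nul S (fun k => h (fc (Setoid.ker fun ω => rd k (ub k ω)) : FL ((l k).T.rest (E k)))
      ((l k).T.rmap (E k) ((l k).v ⊔ (l k).p.map (A i k)))) := by
    intro i
    refine (Nul.const S (Real.logb 2 N)).of_le (Eventually.of_forall fun k => h_nonneg _ _) ?_
    filter_upwards [hev] with k hk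
    have h3 := h_few (F := (l k).T) (E k) (fun ω => rd k (ub k ω)) (fun ω => u k (c i k ((D i k).f ω))) N (e k)
      (fun ω _ hω => he i k _ _ _ (hω i₀ (Finset.mem_univ _)) (hω i (Finset.mem_univ _))) hk
    refine le_trans (h_anti ?_) h3
    exact (l k).T.rmap_mono (E k) (hfun' i k)
  obtain ⟨r1, r2⟩ := IsMaxf.fun_small_im hl hA E hpos (hA₂ _) (fun k => Setoid.ker fun ω => rd k (ub k ω)) hN
  refine ⟨E, ub, hpE, fun k ω h => h i₀ (Finset.mem_univ _), fun k ω ω' h => ?_, fun k ω hω => ?_, r1, r2⟩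
  · show u k (c i₀ k ((D i₀ k).f ω)) = u k (c i₀ k ((D i₀ k).f ω'))
    rw [h]
  · refine ⟨c i₀ k ((D i₀ k).f ω), (hc1 i₀ k ω hω).2, ?_, rfl⟩
    rw [hD k]
    have := (hc1 i₀ k ω hω).1
    rw [hD k] at this
    exact this

/-- in a connected family an agreement function is trivial: same statement over the trivial label -/
theorem Conf.nul_fun (hA : Conf A) (hl : l.DMf A) (W : ∀ k, Setoid (l k).T.Ω)
    (h1 : ∀ i, Nul S (fun k => h (fc (W k) : FL (l k).T) ((l k).v ⊔ (l k).p.map (A i k)))) :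
    Nul S (fun k => ((l.addW W) k).info) := hA _ (hl.addW W h1)

end Lab

end

end Pool.Agent.Helper40.EL
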