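import Pool.Agent.Helper49.MT.Pb
import Pool.Agent.Helper52.KP.Add

/-! MULTI-TYPE LAYER: restriction of Markov labels of a family to events, glueing, ADDITIVITY of maximal informations
over positive restrictions, maximality on events (KAPPA (3.1)-(3.4) for families; proofs of Helper52.KP.Add). -/

namespace Pool.Agent.Helper40.EL

open Finset Filter Topology Pool.Agent.Helper69.RK Pool.Agent.Helper31.EC Pool.Agent.Helper52.KP

noncomputable section

namespace Lab

variable {S T : Sp} {ι : Type} {A : ι → Part S} {l : Lab S}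

/-- (3.1) restriction to an event of the space of the label -/
theorem DMf.im (h : l.DMf A) (E : ∀ k, (l.sp.F k).Ω → Prop) (hE : 0 < ul (l.sp.pr E)) :
    (l.im E).DMf (fun i => (A i).im l.pj E) := fun i => ((h.dm i i).im E hE).1

/-- restriction to an event of the space -/
theorem DMf.rst (h : l.DMf A) (E : ∀ k, (S.F k).Ω → Prop) (hE : 0 < ul (S.pr E)) :
    (l.rst E).DMf (fun i => (A i).rest E) := fun i => ((h.dm i i).rst E hE).1

/-- GLUEING -/
theorem DMf.glue {p : Pj T S} {E : ∀ k, (T.F k).Ω → Prop} {l₁ : Lab (Sp.im p E)}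
    {l₂ : Lab (Sp.im p (fun k ω => ¬ E k ω))} (h₁ : l₁.DMf (fun i => (A i).im p E))
    (h₂ : l₂.DMf (fun i => (A i).im p (fun k ω => ¬ E k ω))) : (Lab.glue p E l₁ l₂).DMf A :=
  fun i => (DM.glue (h₁.dm i i) (h₂.dm i i)).1

/-- a label of the restriction to a typical event extends to a label of the space -/
theorem IsMaxf.info_le_typ (p : Pj T S) (E : ∀ k, (T.F k).Ω → Prop) (hE : Sp.Typ E) (h : l.IsMaxf A) {i : ι}
    (hA : (A i).Bd) {l₁ : Lab (Sp.im p E)} (h₁ : l₁.DMf (fun i => (A i).im p E)) : l₁.info ≤ l.info := by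
  have hE0 := Sp.ul_pr_typ_pos E hE
  have u₁ := h₁.ub (i := i) (hA.im p hE0)
  have d := DMf.glue h₁ (DMf_triv (S := Sp.im p (fun k ω => ¬ E k ω)) (fun i => (A i).im p (fun k ω => ¬ E k ω)))
  have h2 := h.2 _ d
  have e0 : (fun k => (FLab.triv ((Sp.im p (fun k ω => ¬ E k ω)).F k)).info / (S.F k).n) = fun _ => 0 := by
    funext k
    rw [FLab.triv_info, zero_div]
  have u₂ : UB (fun k => (FLab.triv ((Sp.im p (fun k ω => ¬ E k ω)).F k)).info / (S.F k).n) := by
    rw [e0]; exact UB_const 0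
  have h3 := glue_info_eq (p := p) (E := E) (l₁ := l₁)
    (l₂ := fun k => FLab.triv ((Sp.im p (fun k ω => ¬ E k ω)).F k)) u₁ u₂
  have h4 : ul (T.pr E) = 1 := Sp.ul_pr_typ E hE
  rw [h4] at h3
  linarith

/-- (3.2) the maximal information is superadditive, positive complement -/
theorem IsMaxf.split (h : l.IsMaxf A) (E : ∀ k, (S.F k).Ω → Prop) (hE : 0 < ul (S.pr E))
    (hE' : 0 < ul (S.pr fun k ω => ¬ E k ω)) {l₁ : Lab (S.rest E)} {l₂ : Lab (S.rest fun k ω => ¬ E k ω)}
    (h₁ : l₁.IsMaxf (fun i => (A i).rest E)) (h₂ : l₂.IsMaxf (fun i => (A i).rest fun k ω => ¬ E k ω)) {i : ι}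
    (hA : (A i).Bd) (hA₁ : ((A i).rest E).Bd) (hA₂ : ((A i).rest fun k ω => ¬ E k ω).Bd) :
    l.info ≤ ul (S.pr E) * l₁.info + (1 - ul (S.pr E)) * l₂.info := by
  have d₁ := h.1.rst E hE
  have d₂ := h.1.rst (fun k ω => ¬ E k ω) hE'
  have u := h.1.ub hA
  have u₁ := d₁.ub (i := i) hA₁
  have u₂ := d₂.ub (i := i) hA₂
  have m₁ := h₁.2 _ d₁
  have m₂ := h₂.2 _ d₂
  have e : l.info ≤ ul (S.pr E) * (l.rst E).info + (1 - ul (S.pr E)) * (l.rst fun k ω => ¬ E k ω).info := by
    have t : Tendsto (fun k => S.pr E k * (((l.rst E) k).info / (S.F k).n) + (1 - S.pr E k) *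
        (((l.rst fun k ω => ¬ E k ω) k).info / (S.F k).n) + 1 / (S.F k).n) UF
        (𝓝 (ul (S.pr E) * (l.rst E).info + (1 - ul (S.pr E)) * (l.rst fun k ω => ¬ E k ω).info + 0)) :=
      (((ul_tendsto (Sp.UB_pr E)).mul (ul_tendsto u₁)).add
        (((ul_tendsto (Sp.UB_pr E)).const_sub 1).mul (ul_tendsto u₂))).add (S.div_n_tendsto 1)
    rw [add_zero] at t
    refine le_of_tendsto_of_tendsto (ul_tendsto u) t (Eventually.of_forall fun k => ?_)
    have h1 := (l k).rst_split (E k)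
    have h2 := div_le_div_of_nonneg_right h1 (S.F k).pos.le
    exact h2.trans (le_of_eq (dv2 _ _ _ _))
  have p0 := hE.le
  have p1 : ul (S.pr E) ≤ 1 := ul_le_const (Sp.UB_pr E) (Eventually.of_forall fun k => Sp.pr_le_one E k)
  have := mul_le_mul_of_nonneg_left m₁ p0
  have := mul_le_mul_of_nonneg_left m₂ (sub_nonneg.mpr p1)
  linarith

/-- the informations of the restriction to a typical event of the space of a label -/
theorem DMf.info_im_typ (h : l.DMf A) (E : ∀ k, (l.sp.F k).Ω → Prop) (hE : Sp.Typ E) {i : ι} (hA : (A i).Bd)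
    (hA₂ : ((A i).im l.pj fun k ω => ¬ E k ω).Bd) : l.info ≤ (l.im E).info := by
  have hE0 := Sp.ul_pr_typ_pos E hE
  have d₁ := h.im E hE0
  have u := h.ub hA
  have u₁ := d₁.ub (i := i) (hA.im l.pj hE0)
  have hp := (Sp.Typ_iff E).mp hE
  have hp' : Tendsto (fun k => 1 - l.sp.pr E k) UF (𝓝 0) := by
    have := hp.const_sub 1
    rwa [sub_self] at this
  have hr : ∀ k, (1 - (l k).T.pb (E k)) * ((l k).im fun ω => ¬ E k ω).info ≤
      (1 - (l k).T.pb (E k)) * H (FSp.imap (l k).p (fun ω => ¬ E k ω) (A i k)) + ((l k).leak (A i k) + 1) := by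
    intro k
    have h1 := FLab.info_le ((l k).im fun ω => ¬ E k ω) (FSp.imap (l k).p (fun ω => ¬ E k ω) (A i k))
    have h2 := (l k).im_leak (fun ω => ¬ E k ω) (A i k)
    have h3 : (l k).T.pb (fun ω => ¬ E k ω) = 1 - (l k).T.pb (E k) := by
      have := (l k).T.pb_add_compl (E k)
      linarith
    rw [h3] at h2
    have h4 : 0 ≤ 1 - (l k).T.pb (E k) := sub_nonneg.mpr ((l k).T.pb_le_one (E k))
    have h5 := mul_le_mul_of_nonneg_left h1 h4
    rw [mul_add] at h5
    linarith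
  have t : Tendsto (fun k => l.sp.pr E k * (((l.im E) k).info / (S.F k).n) + ((1 - l.sp.pr E k) *
      (H (FSp.imap (l k).p (fun ω => ¬ E k ω) (A i k)) / (S.F k).n) +
        ((l k).leak (A i k) / (S.F k).n + 1 / (S.F k).n)) + 1 / (S.F k).n) UF
      (𝓝 (1 * (l.im E).info + (0 * ul (fun k => H (FSp.imap (l k).p (fun ω => ¬ E k ω) (A i k)) / (S.F k).n) +
        (0 + 0)) + 0)) :=
    ((hp.mul (ul_tendsto u₁)).add ((hp'.mul (ul_tendsto hA₂)).add
      (Filter.Tendsto.add (h i) (S.div_n_tendsto 1)))).add (S.div_n_tendsto 1)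
  simp only [one_mul, zero_mul, add_zero] at t
  refine le_of_tendsto_of_tendsto (ul_tendsto u) t (Eventually.of_forall fun k => ?_)
  have h1 := ((l k).im_info (E k)).1
  have h2 := hr k
  have h3 : (l k).info ≤ (l k).T.pb (E k) * ((l k).im (E k)).info + ((1 - (l k).T.pb (E k)) *
      H (FSp.imap (l k).p (fun ω => ¬ E k ω) (A i k)) + ((l k).leak (A i k) + 1)) + 1 := by linarith
  have h4 := div_le_div_of_nonneg_right h3 (S.F k).pos.le
  refine h4.trans (le_of_eq ?_)
  show ((l k).T.pb (E k) * ((l k).im (E k)).info + ((1 - (l k).T.pb (E k)) *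
      H (FSp.imap (l k).p (fun ω => ¬ E k ω) (A i k)) + ((l k).leak (A i k) + 1)) + 1) / (S.F k).n =
    (l k).T.pb (E k) * (((l k).im (E k)).info / (S.F k).n) + ((1 - (l k).T.pb (E k)) *
      (H (FSp.imap (l k).p (fun ω => ¬ E k ω) (A i k)) / (S.F k).n) +
        ((l k).leak (A i k) / (S.F k).n + 1 / (S.F k).n)) + 1 / (S.F k).n
  ring

/-- (3.4) FOR EVERY SPACE: maximal labels are maximal on every event of positive probability of their space -/
theorem IsMaxf.im_max (h : l.IsMaxf A) (E : ∀ k, (l.sp.F k).Ω → Prop) (hE : 0 < ul (l.sp.pr E)) {i : ι}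
    (hA : (A i).Bd) (hA₂ : ((A i).im l.pj fun k ω => ¬ E k ω).Bd) :
    (l.im E).IsMaxf (fun i => (A i).im l.pj E) := by
  have hA₁ := hA.im l.pj hE
  rcases Sp.typ_or E with ht | hE'
  · refine ⟨h.1.im E hE, fun l₁ h₁ => ?_⟩
    exact (IsMaxf.info_le_typ l.pj E ht h hA h₁).trans (DMf.info_im_typ h.1 E ht hA hA₂)
  · have d₁ := h.1.im E hE
    have d₂ := h.1.im (fun k ω => ¬ E k ω) hE'
    have u := h.1.ub hA
    have u₁ := d₁.ub (i := i) hA₁
    have u₂ := d₂.ub (i := i) hA₂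
    refine ⟨d₁, fun l₁ h₁ => ?_⟩
    have v₁ := h₁.ub (i := i) hA₁
    have g := h.2 _ (DMf.glue h₁ d₂)
    have g2 := glue_info_eq (p := l.pj) (E := E) (l₁ := l₁) (l₂ := l.im fun k ω => ¬ E k ω) v₁ u₂
    rw [g2] at g
    have e : l.info ≤ ul (l.sp.pr E) * (l.im E).info + (1 - ul (l.sp.pr E)) * (l.im fun k ω => ¬ E k ω).info := by
      have t : Tendsto (fun k => l.sp.pr E k * (((l.im E) k).info / (S.F k).n) + (1 - l.sp.pr E k) *
          (((l.im fun k ω => ¬ E k ω) k).info / (S.F k).n) + 1 / (S.F k).n) UF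
          (𝓝 (ul (l.sp.pr E) * (l.im E).info + (1 - ul (l.sp.pr E)) * (l.im fun k ω => ¬ E k ω).info + 0)) :=
        (((ul_tendsto (Sp.UB_pr E)).mul (ul_tendsto u₁)).add
          (((ul_tendsto (Sp.UB_pr E)).const_sub 1).mul (ul_tendsto u₂))).add (S.div_n_tendsto 1)
      rw [add_zero] at t
      refine le_of_tendsto_of_tendsto (ul_tendsto u) t (Eventually.of_forall fun k => ?_)
      have h1 := ((l k).im_info (E k)).1
      have h2 := div_le_div_of_nonneg_right h1 (S.F k).pos.le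
      exact h2.trans (le_of_eq (dv2 _ _ _ _))
    have h5 : ul (l.sp.pr E) * l₁.info ≤ ul (l.sp.pr E) * (l.im E).info := by linarith
    exact le_of_mul_le_mul_left h5 hE

/-- ADDITIVITY of maximal informations -/
theorem IsMaxf.add [Countable ι] (h : l.IsMaxf A) (p : Pj T S) (E : ∀ k, (T.F k).Ω → Prop) (hE : 0 < ul (T.pr E))
    (hE' : 0 < ul (T.pr fun k ω => ¬ E k ω)) {l₁ : Lab (Sp.im p E)} {l₂ : Lab (Sp.im p fun k ω => ¬ E k ω)}
    (h₁ : l₁.IsMaxf (fun i => (A i).im p E)) (h₂ : l₂.IsMaxf (fun i => (A i).im p fun k ω => ¬ E k ω)) {i : ι}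
    (hA : (A i).Bd) : l.info = ul (T.pr E) * l₁.info + (1 - ul (T.pr E)) * l₂.info := by
  have hA₁ := hA.im p hE
  have hA₂ := hA.im p hE'
  apply le_antisymm
  · obtain ⟨l', hl'⟩ := exists_maxf (fun i => (A i).pull p) (i₀ := i) (hA.pull p)
    have b₁ : (((A i).pull p).rest E).Bd := by
      rw [← Part.im_pull]; exact hA₁.pull _
    have b₂ : (((A i).pull p).rest fun k ω => ¬ E k ω).Bd := by
      rw [← Part.im_pull]; exact hA₂.pull _
    obtain ⟨m₁, hm₁⟩ := exists_maxf (fun i => ((A i).pull p).rest E) (i₀ := i) b₁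
    obtain ⟨m₂, hm₂⟩ := exists_maxf (fun i => ((A i).pull p).rest fun k ω => ¬ E k ω) (i₀ := i) b₂
    have s := IsMaxf.split (i := i) hl' E hE hE' hm₁ hm₂ (hA.pull p) b₁ b₂
    have e0 := IsMaxf.info_pull p h hl' hA
    have hm₁' : m₁.IsMaxf (fun i => Part.pull (Sp.imq p E) ((A i).im p E)) := by
      have e : (fun i => Part.pull (Sp.imq p E) ((A i).im p E)) = fun i => ((A i).pull p).rest E :=
        funext fun i => Part.im_pull p E (A i)
      rw [e]; exact hm₁
    have hm₂' : m₂.IsMaxf (fun i => Part.pull (Sp.imq p fun k ω => ¬ E k ω) ((A i).im p fun k ω => ¬ E k ω)) := by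
      have e : (fun i => Part.pull (Sp.imq p fun k ω => ¬ E k ω) ((A i).im p fun k ω => ¬ E k ω)) =
          fun i => ((A i).pull p).rest fun k ω => ¬ E k ω := funext fun i => Part.im_pull p _ (A i)
      rw [e]; exact hm₂
    have e1 := IsMaxf.info_pull (Sp.imq p E) h₁ hm₁' (i := i) hA₁
    have e2 := IsMaxf.info_pull (Sp.imq p fun k ω => ¬ E k ω) h₂ hm₂' (i := i) hA₂
    rw [e0, e1, e2] at s
    exact s
  · have g := h.2 _ (DMf.glue h₁.1 h₂.1)
    have g2 := glue_info_eq (p := p) (E := E) (l₁ := l₁) (l₂ := l₂) (h₁.1.ub (i := i) hA₁) (h₂.1.ub (i := i) hA₂)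
    rw [g2] at g
    exact g

/-- typical events do not change the maximal information -/
theorem IsMaxf.info_typ (h : l.IsMaxf A) (p : Pj T S) (E : ∀ k, (T.F k).Ω → Prop) (ht : Sp.Typ E)
    {l₁ : Lab (Sp.im p E)} (h₁ : l₁.IsMaxf (fun i => (A i).im p E)) {i : ι} (hA : (A i).Bd)
    (hA₂ : (((A i).pull p).rest fun k ω => ¬ E k ω).Bd) : l₁.info = l.info := by
  have hE := Sp.ul_pr_typ_pos E ht
  apply le_antisymm
  · exact IsMaxf.info_le_typ p E ht h hA h₁.1
  · have hup := h.1.up' p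
    have hr := hup.rst E hE
    have b1 : ((A i).pull p).Bd := hA.pull p
    have b2 : (((A i).pull p).rest E).Bd := by
      rw [← Part.im_pull]; exact (hA.im p hE).pull _
    have hr' : ((l.up' p).rst E).DMf (fun i => Part.pull (Sp.imq p E) ((A i).im p E)) := by
      have e : (fun i => Part.pull (Sp.imq p E) ((A i).im p E)) = fun i => ((A i).pull p).rest E :=
        funext fun i => Part.im_pull p E (A i)
      rw [e]; exact hr
    have hd := hr'.down (Sp.imq p E)
    have h2 := h₁.2 _ hd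
    rw [DMf.info_down (Sp.imq p E) hr' (hA.im p hE)] at h2
    have h3 := DMf.info_up' p h.1 hA
    have h4 : (l.up' p).info ≤ ((l.up' p).rst E).info :=
      DM.info_rst_typ (hup.dm i i) E ht b1 b2 hA₂
    linarith

/-- a connected family stays connected on events of positive probability -/
theorem Conf.im [Countable ι] (h : Conf A) (p : Pj T S) (E : ∀ k, (T.F k).Ω → Prop) (hE : 0 < ul (T.pr E)) {i : ι}
    (hA : (A i).Bd) : Conf (fun i => (A i).im p E) := by
  obtain ⟨l, hl⟩ := exists_maxf A hA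
  have h0 := h.info hl.1
  refine conf_of_info (i := i) (hA.im p hE) fun l₁ h₁ => ?_
  rcases Sp.typ_or E with ht | hE'
  · rw [← h0]
    exact IsMaxf.info_le_typ p E ht hl hA h₁
  · obtain ⟨m₁, hm₁⟩ := exists_maxf (fun i => (A i).im p E) (i₀ := i) (hA.im p hE)
    obtain ⟨m₂, hm₂⟩ := exists_maxf (fun i => (A i).im p fun k ω => ¬ E k ω) (i₀ := i) (hA.im p hE')
    have e := IsMaxf.add hl p E hE hE' hm₁ hm₂ hA
    rw [h0] at e
    have g1 : 0 ≤ m₁.info := Lab.info_nonneg' (hm₁.1.ub (i := i) (hA.im p hE))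
    have g2 : 0 ≤ m₂.info := Lab.info_nonneg' (hm₂.1.ub (i := i) (hA.im p hE'))
    have g3 : 0 ≤ (1 - ul (T.pr E)) * m₂.info := mul_nonneg (sub_nonneg.mpr (Sp.ul_pr_le_one E)) g2
    have g4 : ul (T.pr E) * m₁.info ≤ 0 := by linarith
    have g5 : m₁.info ≤ 0 := by
      by_contra hc
      rw [not_le] at hc
      have := mul_pos hE hc
      linarith
    exact (hm₁.2 _ h₁).trans g5

end Lab

end

end Pool.Agent.Helper40.EL
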