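import Pool.Agent.Helper56.MT.M3
import Pool.Agent.Helper31.EC.DensS

/-! MULTI-TYPE LAYER: functoriality. Labels of an extension as labels of the space, for families of conditions; a
condition may be replaced by (any information of the extension generated from it), e.g. by a label without leak
(LEMMA F of 75c), and conditions may be added (ADD of 29e). Exact connectedness is inherited. -/

namespace Pool.Agent.Helper40.EL

open Finset Filter Topology Pool.Agent.Helper69.RK Pool.Agent.Helper31.EC

noncomputable section

/-- LEMMA F, exact calculus -/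
theorem leak_replace {L : Type*} [PM L] {u o o' x y : L} (h1 : o' ≤ o) (h2 : x ≤ o) (h3 : y ≤ o) :
    I u o' x ≤ I y o' x + I u o y := by
  have a1 : I u o' x ≤ I (y ⊔ u) o' x := I_mono_left (le_sup_right.trans le_sup_left)
  rw [I_chain] at a1
  have a2 : I u o' (y ⊔ x) ≤ I u o (y ⊔ x) := I_mono_right (h1.trans le_sup_left)
  have a3 : I u o (y ⊔ x) ≤ I u o y := leak_cond le_sup_left (sup_le h3 h2)
  linarith

namespace FLab

variable {T F : FSp} (p : FPj T F) (hn : T.n = F.n) (u : FLab T)

/-- LEMMA F, finite labels: the leak at `x` of a label of an extension is at most the leak of `y` at `x` plus the leak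
of the label at `y` -/
theorem down_leak_of (y : FL T) (x : FL F) : (down p hn u).leak x ≤ I y p.top (p.map x) + u.leak y := by
  have h0 : (down p hn u).leak x = I u.v (u.p.map p.top) (u.p.map (p.map x)) := by
    unfold leak
    have h1 : (down p hn u).p.map x = u.p.map (p.map x) := FPj.comp_map _ _ _
    rw [h1]
    rfl
  rw [h0, ← u.p.I_map y p.top (p.map x)]
  exact leak_replace (u.p.map_le_top _) (u.p.map_le_top _) (u.p.map_le_top _)

theorem down_leak_of_label (l : FLab F) (u : FLab l.T) (x : FL F) :
    (down l.p l.hn u).leak x ≤ l.leak x + u.leak l.v := down_leak_of l.p l.hn u l.v x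

end FLab

namespace Lab

variable {S T : Sp} {ι ι' : Type} {A : ι → Part S} {C : ι' → Part T} {l : Lab S}

theorem DMf.down (p : Pj T S) {l : Lab T} (h : l.DMf (fun i => (A i).pull p)) : (l.down p).DMf A :=
  fun i => ((h.dm i i).down p).1

theorem DMf.up' (p : Pj T S) (h : l.DMf A) : (l.up' p).DMf (fun i => (A i).pull p) :=
  fun i => ((h.dm i i).up' p).1

theorem DMf.info_down (p : Pj T S) {l : Lab T} (h : l.DMf (fun i => (A i).pull p)) {i : ι} (hA : (A i).Bd) :
    (l.down p).info = l.info := DM.info_down p (h.dm i i) hA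

theorem DMf.info_up' (p : Pj T S) (h : l.DMf A) {i : ι} (hA : (A i).Bd) : l.info ≤ (l.up' p).info :=
  Lab.info_up' p (h.dm i i) hA

/-- maximal informations do not change in extensions -/
theorem IsMaxf.info_pull (p : Pj T S) {l' : Lab T} (h : l.IsMaxf A) (h' : l'.IsMaxf (fun i => (A i).pull p))
    {i : ι} (hA : (A i).Bd) : l'.info = l.info := by
  apply le_antisymm
  · rw [← DMf.info_down p h'.1 hA]
    exact h.2 _ (h'.1.down p)
  · exact (DMf.info_up' p h.1 hA).trans (h'.2 _ (h.1.up' p))

/-- maximal labels stay maximal in extensions -/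
theorem IsMaxf.up' (p : Pj T S) (h : l.IsMaxf A) {i : ι} (hA : (A i).Bd) :
    (l.up' p).IsMaxf (fun i => (A i).pull p) := by
  refine ⟨h.1.up' p, fun l' h' => ?_⟩
  rw [← DMf.info_down p h' hA]
  exact (h.2 _ (h'.down p)).trans (DMf.info_up' p h.1 hA)

theorem IsMaxf.down (p : Pj T S) {l' : Lab T} (h : l'.IsMaxf (fun i => (A i).pull p)) {i : ι} (hA : (A i).Bd) :
    (l'.down p).IsMaxf A := by
  refine ⟨h.1.down p, fun l h' => ?_⟩
  rw [DMf.info_down p h.1 hA]
  exact (DMf.info_up' p h' hA).trans (h.2 _ (h'.up' p))

/-- LEMMA F FOR FAMILIES: let `C` be conditions on an extension such that every condition `A i` of the space generates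
one of them (`I(C j; space | A i) = 0`; e.g. `C j ≤ A i`, or `C j` a label without leak at `A i`). Markov labels of `C`
are Markov labels of `A`. -/
theorem DMf.down_of (p : Pj T S)
    (hC : ∀ i, ∃ j, Nul S (fun k => I (C j k) (p.fp k).top ((p.fp k).map (A i k)))) {u : Lab T} (hu : u.DMf C) :
    (u.down p).DMf A := by
  intro i
  obtain ⟨j, hj⟩ := hC i
  apply (hj.add ((nul_pj p).mp (hu j))).of_le (Eventually.of_forall fun k => FLab.leak_nonneg _ _)
  exact Eventually.of_forall fun k => FLab.down_leak_of (p.fp k) (p.hn k) (u k) (C j k) (A i k)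

/-- coarser conditions are generated -/
theorem nul_of_PLe (p : Pj T S) {C : Part T} {A : Part S} (h : PLe C (A.pull p)) :
    Nul S (fun k => I (C k) (p.fp k).top ((p.fp k).map (A k))) := by
  apply ((nul_pj p).mp h).of_le (Eventually.of_forall fun k => I_nonneg _ _ _)
  exact Eventually.of_forall fun k => I_le_h_left _ _ _

/-- the informations, if one of the conditions is coarser than a condition of the space -/
theorem DMf.info_down_of (p : Pj T S) {u : Lab T} (hu : u.DMf C) {j : ι'} {A₀ : Part S}
    (hj : PLe (C j) (A₀.pull p)) (hA : A₀.Bd) : (u.down p).info = u.info := by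
  have h1 : u.DM (A₀.pull p) (A₀.pull p) := (hu.dm j j).mono hj hj
  exact DM.info_down p h1 hA

/-- the extra information of a label of an extension over its restriction to the space -/
theorem DMf.nul_down (p : Pj T S) {u : Lab T} (hu : u.DMf C) {j : ι'} {A₀ : Part S}
    (hj : PLe (C j) (A₀.pull p)) (h : Nul S (fun k => ((u.down p) k).info)) : Nul T (fun k => (u k).info) := by
  have h1 : u.DM (A₀.pull p) (A₀.pull p) := (hu.dm j j).mono hj hj
  rw [nul_pj p]
  apply (h.add ((nul_pj p).mp h1.1)).of_le (Eventually.of_forall fun k => FLab.info_nonneg _)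
  exact Eventually.of_forall fun k => FLab.down_info (p.fp k) (p.hn k) (u k) (A₀ k)

variable (A) in
/-- EXACT CONNECTEDNESS: all Markov labels of the family are trivial -/
def Conf : Prop := ∀ l : Lab S, l.DMf A → Nul S (fun k => (l k).info)

theorem Conf.info (h : Conf A) (hl : l.DMf A) : l.info = 0 := ul_eq (h l hl)

theorem conf_of_info {i : ι} (hA : (A i).Bd) (h : ∀ l : Lab S, l.DMf A → l.info ≤ 0) : Conf A := by
  intro l hl
  rw [Nul_iff_ul (Eventually.of_forall fun k => FLab.info_nonneg _)]
  exact ⟨hl.ub hA, h l hl⟩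

/-- more and coarser conditions -/
theorem Conf.mono {A' : ι' → Part S} (h : Conf A) (hA : ∀ i, ∃ j, PLe (A' j) (A i)) : Conf A' :=
  fun l hl => h l (DMf.mono (A := A') (A' := A) hl hA)

theorem IsMaxf.conf {c : ℝ} {hc : 0 < c} (h : l.IsMaxf A) {i₀ : ι} (hA : (A i₀).Bd) :
    Conf (fun i => l.up c hc (A i)) := fun l2 h2 => (l.nul_over c hc).mpr (IsMaxf.triv h hA l2 h2)

/-- CONNECTEDNESS IS INHERITED by extensions with replaced / added conditions (75c LEMMA F, 29e ADD) -/
theorem Conf.of_down (p : Pj T S) (h : Conf A)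
    (hC : ∀ i, ∃ j, Nul S (fun k => I (C j k) (p.fp k).top ((p.fp k).map (A i k)))) {j : ι'} {A₀ : Part S}
    (hj : PLe (C j) (A₀.pull p)) : Conf C := fun _ hu => hu.nul_down p hj (h _ (hu.down_of p hC))

/-- connectedness of an extension with the same conditions -/
theorem Conf.pull (p : Pj T S) (h : Conf A) [hne : Nonempty ι] : Conf (fun i => (A i).pull p) :=
  h.of_down p (fun i => ⟨i, nul_of_PLe p (PLe.refl _)⟩) (j := hne.some) (A₀ := A hne.some) (PLe.refl _)

/-- connectedness of a factor: a system with fewer informations -/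
theorem Conf.down (p : Pj T S) (h : Conf (fun i => (A i).pull p)) : Conf A := by
  intro l hl
  have h1 := (nul_pj p).mp (h _ (hl.up' p))
  apply h1.of_le (Eventually.of_forall fun k => FLab.info_nonneg _)
  exact Eventually.of_forall fun k => FLab.up'_info (l k) (p.fp k) (p.hn k)

/-- FACTORS: Markov labels of a factor `T → S` (truncated, projected systems), pulled back, are Markov labels for
finer conditions of `T` -/
theorem DMf.of_factor (p : Pj T S) (h : l.DMf A) (hC : ∀ j, ∃ i, PLe ((A i).pull p) (C j)) : (l.up' p).DMf C :=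
  DMf.mono (A := fun i => (A i).pull p) (h.up' p) hC

/-- a factor with finer conditions of a connected system is connected -/
theorem Conf.factor (p : Pj T S) (h : Conf C) (hC : ∀ j, ∃ i, PLe ((A i).pull p) (C j)) : Conf A :=
  (h.mono (A' := fun i => (A i).pull p) hC).down p

/-! ### the space of a label -/

/-- the label as an information of its space -/
def vP (l : Lab S) : Part l.sp := fun k => (l k).v

theorem vP_gen {l : Lab S} {A : Part S} (h : Nul S (fun k => (l k).leak (A k))) :
    Nul S (fun k => I (l.vP k) (l.pj.fp k).top ((l.pj.fp k).map (A k))) := h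

/-- LEMMA F: on the space of a label `l` without leak at the conditions `i ∈ J`, these conditions may be replaced by the
label `l` -/
theorem Conf.replace (h : Conf A) (J : Set ι) (hl : ∀ i ∈ J, Nul S (fun k => (l k).leak (A i k))) {i₀ : ι}
    (hi₀ : i₀ ∉ J) : Conf (fun j : Option {i // i ∉ J} => match j with
      | none => l.vP
      | some i => (A i.1).pull l.pj) := by
  classical
  refine h.of_down l.pj (fun i => ?_) (j := some ⟨i₀, hi₀⟩) (A₀ := A i₀) (PLe.refl _)
  by_cases hi : i ∈ J
  · exact ⟨none, vP_gen (hl i hi)⟩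
  · exact ⟨some ⟨i, hi⟩, nul_of_PLe l.pj (PLe.refl _)⟩

/-- ADD: the label is added as a condition, the others are kept -/
theorem Conf.addType (h : Conf A) [hne : Nonempty ι] (C : ι' → Part l.sp) :
    Conf (fun j : ι ⊕ ι' => Sum.elim (fun i => (A i).pull l.pj) C j) :=
  h.of_down l.pj (fun i => ⟨Sum.inl i, nul_of_PLe l.pj (PLe.refl _)⟩) (j := Sum.inl hne.some) (A₀ := A hne.some)
    (PLe.refl _)

end Lab

end

end Pool.Agent.Helper40.EL
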