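import Pool.Agent.Helper56.MT.M3
import Pool.Agent.Helper40.EL.D5

/-! MULTI-TYPE LAYER: literally nested families of maximal Markov labels (KAPPA (1.3)) for countably many windows, each
window a countable family of conditions. The windows are indexed by `ℕ` with any reflexive and transitive relation
`R i j` (window `j` is finer than window `i`). -/

namespace Pool.Agent.Helper40.EL

open Finset Filter Topology Pool.Agent.Helper69.RK Pool.Agent.Helper31.EC

noncomputable section

/-- finitely many terms, each at most `1/(N+1)^2` -/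
theorem sum_if_le (N : ℕ) (f : ℕ → ℝ) (P : ℕ → Prop) [DecidablePred P]
    (hf : ∀ i ∈ range N, P i → f i ≤ 1 / ((N : ℝ) + 1) ^ 2) :
    (∑ i ∈ range N, if P i then f i else 0) ≤ 1 / ((N : ℝ) + 1) := by
  have h1 : (∑ i ∈ range N, if P i then f i else 0) ≤ ∑ i ∈ range N, 1 / ((N : ℝ) + 1) ^ 2 := by
    apply Finset.sum_le_sum
    intro i hi
    split_ifs with hP
    · exact hf i hi hP
    · positivity
  refine h1.trans ?_
  rw [Finset.sum_const, card_range, nsmul_eq_mul, mul_one_div, div_le_div_iff₀ (by positivity) (by positivity)]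
  nlinarith [(Nat.cast_nonneg N : (0 : ℝ) ≤ N)]

open Classical in
/-- D7 FOR FAMILIES: LITERALLY NESTED FAMILIES of maximal Markov labels for countably many windows -/
theorem exists_nestedf {S : Sp} {ι : Type} [Countable ι] (R : ℕ → ℕ → Prop) (hR : ∀ i, R i i)
    (hRt : ∀ i j l, R i j → R j l → R i l) (A : ℕ → ι → Part S)
    (hA : ∀ i j, R i j → ∀ a, ∃ b, PLe (A i b) (A j a)) (i₀ : ℕ → ι) (hAb : ∀ i, (A i (i₀ i)).Bd) (κ : ℕ → Lab S)
    (hκ : ∀ i, (κ i).IsMaxf (A i)) :
    ∃ M : Fam S, (∀ i, (M.lab i).IsMaxf (A i)) ∧ (∀ i j, R i j → ∀ k, (M k).V j ≤ (M k).V i) ∧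
      ∀ i, ∀ᶠ k in UF, ∃ r : FPj (M k).T ((κ i) k).T, (M k).V i ≤ Setoid.comap r.π ((κ i) k).V ∧
        ∀ x, (M k).p.map x = r.map (((κ i) k).p.map x) := by
  obtain ⟨f, hf⟩ := exists_injective_nat ι
  have hfin : ∀ N : ℕ, {a : ι | f a < N}.Finite := by
    intro N
    apply Set.Finite.of_finite_image (f := f) _ hf.injOn
    apply (Set.finite_Iio N).subset
    rintro x ⟨a, ha, rfl⟩
    exact ha
  -- the conditions
  have hG : ∀ N : ℕ, ∀ᶠ k in UF, ∀ i ∈ range N, ∀ j ∈ range N, R i j → ∀ a ∈ {a : ι | f a < N},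
      ((κ i) k).leak (A j a k) / (S.F k).n ≤ 1 / ((N : ℝ) + 1) ^ 2 := by
    intro N
    have hpos : (0 : ℝ) < 1 / ((N : ℝ) + 1) ^ 2 := by positivity
    rw [Filter.eventually_all_finset]
    intro i _
    rw [Filter.eventually_all_finset]
    intro j _
    by_cases hij : R i j
    · have h1 : ∀ᶠ k in UF, ∀ a ∈ {a : ι | f a < N},
          ((κ i) k).leak (A j a k) / (S.F k).n ≤ 1 / ((N : ℝ) + 1) ^ 2 := by
        rw [Filter.eventually_all_finite (hfin N)]
        intro a _
        have h1 := ((hκ i).1.mono (hA i j hij)) a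
        filter_upwards [h1.eventually (gt_mem_nhds hpos)] with k hk using hk.le
      filter_upwards [h1] with k hk _ using hk
    · exact Eventually.of_forall fun k h => absurd h hij
  obtain ⟨J, hJ, hJG⟩ := dia (fun N k => ∀ i ∈ range N, ∀ j ∈ range N, R i j → ∀ a ∈ {a : ι | f a < N},
      ((κ i) k).leak (A j a k) / (S.F k).n ≤ 1 / ((N : ℝ) + 1) ^ 2) hG
  set M : Fam S := fun k =>
    { T := (FFam.bld (fun i => κ i k) (J k)).T
      p := (FFam.bld (fun i => κ i k) (J k)).p
      hn := (FFam.bld (fun i => κ i k) (J k)).hn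
      V := fun j => FFam.mt (FFam.bld (fun i => κ i k) (J k)).V (fun i => R i j) (J k) } with hM
  have hlab : ∀ j k, (M.lab j) k = (FFam.bld (fun i => κ i k) (J k)).labW
      (FFam.mt (FFam.bld (fun i => κ i k) (J k)).V (fun i => R i j) (J k)) := fun _ _ => rfl
  have h0 : Tendsto (fun k => 1 / ((J k : ℝ) + 1)) UF (𝓝 0) :=
    tendsto_one_div_add_atTop_nhds_zero_nat.comp hJ
  have hleakA : ∀ j a, ∀ᶠ k in UF, ((M.lab j) k).leak (A j a k) / (S.F k).n ≤ 1 / ((J k : ℝ) + 1) := by
    intro j a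
    filter_upwards [hJG, hJ.eventually (eventually_gt_atTop j), hJ.eventually (eventually_gt_atTop (f a))]
      with k hk hkj hka
    have h1 := hk (J k) le_rfl
    rw [hlab]
    have h2 := FFam.bld_leak (fun i => κ i k) (fun i => R i j) (A j a k) (J k)
    have h3 := div_le_div_of_nonneg_right h2 (S.F k).pos.le
    refine h3.trans ?_
    rw [Finset.sum_div]
    have h4 : (∑ i ∈ range (J k), (if R i j then ((κ i) k).leak (A j a k) else 0) / (S.F k).n) =
        ∑ i ∈ range (J k), if R i j then ((κ i) k).leak (A j a k) / (S.F k).n else 0 := by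
      apply Finset.sum_congr rfl
      intro i _
      split_ifs
      · rfl
      · rw [zero_div]
    rw [h4]
    apply sum_if_le
    intro i hi hP
    exact h1 i hi j (mem_range.mpr hkj) hP a hka
  have hDM : ∀ j, (M.lab j).DMf (A j) := by
    intro j a
    refine tendsto_of_tendsto_of_tendsto_of_le_of_le' tendsto_const_nhds h0 ?_ (hleakA j a)
    exact Eventually.of_forall fun k => div_nonneg (FLab.leak_nonneg _ _) (S.F k).pos.le
  refine ⟨M, ?_, ?_, ?_⟩
  · intro j
    refine ⟨hDM j, fun l' hl' => ((hκ j).2 l' hl').trans ?_⟩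
    apply ul_mono ((hκ j).1.ub (hAb j)) ((hDM j).ub (hAb j))
    filter_upwards [hJ.eventually (eventually_gt_atTop j)] with k hk
    apply div_le_div_of_nonneg_right _ (S.F k).pos.le
    rw [hlab]
    exact FFam.bld_info (fun i => κ i k) (fun i => R i j) (J k) j hk (hR j)
  · intro i j hij k
    exact FFam.mt_anti _ _ (fun i' h => hRt _ _ _ h hij)
  · intro i
    filter_upwards [hJ.eventually (eventually_gt_atTop i)] with k hk
    obtain ⟨r, hr1, hr2⟩ := FFam.bld_proj (fun i => κ i k) (J k) i hk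
    refine ⟨r, ?_, hr2⟩
    rw [← hr1]
    exact FFam.mt_le _ hk (hR i)

/-- windows ordered by a real number: nested maximal labels exist for every countable set of windows -/
theorem exists_nestedf' {S : Sp} {ι : Type} [Countable ι] (q : ℕ → ℝ) (A : ℕ → ι → Part S)
    (hA : ∀ i j, q i ≤ q j → ∀ a, ∃ b, PLe (A i b) (A j a)) (i₀ : ι) (hAb : ∀ i, (A i i₀).Bd) :
    ∃ M : Fam S, (∀ i, (M.lab i).IsMaxf (A i)) ∧ ∀ i j, q i ≤ q j → ∀ k, (M k).V j ≤ (M k).V i := by
  choose κ hκ using fun i => Lab.exists_maxf (A i) (hAb i)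
  obtain ⟨M, h1, h2, _⟩ := exists_nestedf (fun i j => q i ≤ q j) (fun _ => le_rfl) (fun _ _ _ h h' => h.trans h') A hA
    (fun _ => i₀) hAb κ hκ
  exact ⟨M, h1, h2⟩

end

end Pool.Agent.Helper40.EL
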